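import Pool.Agent.Helper36.CQ.St

/-!
# Project CQ (MP_f663dd_lc): module HAU (Hausdorff's formula)
-/

set_option autoImplicit false

namespace Pool.Agent.Helper37.CQ

open Pool.Agent.Helper36.CQ Cardinal Set
universe u

/-- Hausdorff: `(c⁺) ^ ℵ₀ ≤ max c⁺ (c ^ ℵ₀)` for infinite `c`. -/
theorem hau_succ (c : Cardinal.{u}) (hc : ℵ₀ ≤ c) :
    (Order.succ c) ^ ℵ₀ ≤ max (Order.succ c) (c ^ ℵ₀) := by
  set ν := Order.succ c with hν
  have hcν : c < ν := Order.lt_succ c
  have hν0 : ℵ₀ ≤ ν := hc.trans hcν.le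
  let X := ν.ord.ToType
  have hX : #X = ν := mk_ord_toType ν
  have hIio : ∀ a : X, #(Iio a) ≤ c := by
    intro a
    have h1 : #(Iio a) < ν := mk_Iio_ord_toType a
    exact Order.lt_succ_iff.1 h1
  have hIic : ∀ a : X, #(Iic a) ≤ c := by
    intro a
    have h1 : (Iic a) = insert a (Iio a) := by
      ext b
      simp [le_iff_eq_or_lt]
    rw [h1]
    refine (mk_insert_le).trans ?_
    refine (add_le_add (hIio a) (one_le_aleph0.trans hc)).trans ?_
    rw [add_eq_self hc]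
  -- bounded functions
  have hbd : ∀ f : ULift.{u} ℕ → X, ∃ a : X, ∀ n, f n < a := by
    intro f
    by_contra hcon
    push Not at hcon
    have h1 : (⋃ n : ULift.{u} ℕ, Iic (f n)) = (Set.univ : Set X) := by
      rw [Set.eq_univ_iff_forall]
      intro a
      obtain ⟨n, hn⟩ := hcon a
      exact Set.mem_iUnion.2 ⟨n, hn⟩
    have h2 : #X ≤ #(ULift.{u} ℕ) * ⨆ n : ULift.{u} ℕ, #(Iic (f n)) := by
      rw [← mk_univ, ← h1]
      exact mk_iUnion_le _
    have h3 : (⨆ n : ULift.{u} ℕ, #(Iic (f n))) ≤ c := ciSup_le' (fun n => hIic (f n))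
    have h4 : #(ULift.{u} ℕ) = ℵ₀ := by simp
    have h5 : #X ≤ c := by
      refine h2.trans ((mul_le_mul' (h4.le.trans hc) h3).trans ?_)
      rw [mul_eq_self hc]
    rw [hX] at h5
    exact absurd h5 (not_le.2 hcν)
  have h4 : #(ULift.{u} ℕ) = ℵ₀ := by simp
  have h6 : ν ^ ℵ₀ = #(ULift.{u} ℕ → X) := by
    rw [← hX, ← h4, power_def]
  have h7 : (⋃ a : X, {f : ULift.{u} ℕ → X | ∀ n, f n < a}) = Set.univ := by
    rw [Set.eq_univ_iff_forall]
    intro f
    obtain ⟨a, ha⟩ := hbd f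
    exact Set.mem_iUnion.2 ⟨a, ha⟩
  have h8 : ∀ a : X, #{f : ULift.{u} ℕ → X | ∀ n, f n < a} ≤ c ^ ℵ₀ := by
    intro a
    have h9 : #{f : ULift.{u} ℕ → X | ∀ n, f n < a} ≤ #(ULift.{u} ℕ → Iio a) := by
      refine mk_le_of_injective
        (f := fun f : {f : ULift.{u} ℕ → X | ∀ n, f n < a} => fun n => (⟨f.1 n, f.2 n⟩ : Iio a)) ?_
      intro f g hfg
      apply Subtype.ext
      funext n
      exact congrArg Subtype.val (congrFun hfg n)
    refine h9.trans ?_
    rw [← power_def, h4]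
    exact power_le_power_right (hIio a)
  have hM : ℵ₀ ≤ max ν (c ^ ℵ₀) := hν0.trans (le_max_left _ _)
  rw [h6, ← mk_univ, ← h7]
  refine (mk_iUnion_le _).trans ?_
  have h10 : (⨆ a : X, #{f : ULift.{u} ℕ → X | ∀ n, f n < a}) ≤ max ν (c ^ ℵ₀) :=
    ciSup_le' (fun a => (h8 a).trans (le_max_right _ _))
  refine (mul_le_mul' (hX.le.trans (le_max_left ν (c ^ ℵ₀))) h10).trans ?_
  rw [mul_eq_self hM]

/-- The iterated successors of an infinite cardinal are infinite. -/
theorem hau_inf (ρ : Cardinal.{u}) (n : ℕ) (hρ : ℵ₀ ≤ ρ) : ℵ₀ ≤ Order.succ^[n] ρ := by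
  induction n with
  | zero => simpa using hρ
  | succ n ih =>
    rw [Function.iterate_succ_apply']
    exact ih.trans (Order.le_succ _)

/-- Module HAU. -/
theorem mHAU : StHau.{u} := by
  intro ρ n hρ
  induction n with
  | zero => exact le_max_right _ _
  | succ n ih =>
    rw [Function.iterate_succ_apply']
    refine (hau_succ _ (hau_inf ρ n hρ)).trans ?_
    refine max_le (le_max_left _ _) (ih.trans ?_)
    exact max_le_max (Order.le_succ _) le_rfl

end Pool.Agent.Helper37.CQ
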